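import Mathlib
import Pool.Agent.Q189.CH.E

/-! The zero-one law for the hyperbolicity of the polynomials `P ∘ T_n`, `T_n` the Chebyshev
polynomials. -/

set_option autoImplicit false

open Filter Topology Polynomial MeasureTheory

namespace Pool.Agent.Results.MP_28f8a1_an.ChebyshevZeroOneLaw

/-- The polynomial as a self-map of the plane. -/
def map (T : ℂ[X]) : ℂ → ℂ := fun w : ℂ => T.eval w

/-- The orbit of `z` escapes to infinity. -/
def Escapes (T : ℂ[X]) (z : ℂ) : Prop :=
  Tendsto (fun k : ℕ => ‖(map T)^[k] z‖) atTop atTop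

/-- The orbit of `z` is attracted by a sink (attracting periodic point) of `T`. -/
def Attracted (T : ℂ[X]) (z : ℂ) : Prop :=
  ∃ n : ℕ, 0 < n ∧ ∃ x : ℂ, (map T)^[n] x = x ∧ ‖deriv ((map T)^[n]) x‖ < 1 ∧
    Tendsto (fun k : ℕ => (map T)^[n * k] z) atTop (𝓝 x)

/-- `T` is hyperbolic: every critical point escapes or is attracted by a sink. -/
def Hyperbolic (T : ℂ[X]) : Prop :=
  ∀ c : ℂ, (derivative T).eval c = 0 → Escapes T c ∨ Attracted T c

/-- `T P n` is the polynomial `P ∘ T_n`, where `T_n` is the Chebyshev polynomial of degree `n`,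
`T_n (cos θ) = cos (n θ)`. -/
noncomputable def T (P : ℂ[X]) (n : ℕ) : ℂ[X] := P.comp (Chebyshev.T ℂ n)

/-- `x` belongs to the segment `[-1, 1]`. -/
def InSegment (x : ℂ) : Prop := ∃ t : ℝ, |t| ≤ 1 ∧ x = t

/-- `P` maps only finitely many points of the segment `[-1, 1]` into this segment. -/
def Transverse (P : ℂ[X]) : Prop := {u : ℂ | InSegment u ∧ InSegment (P.eval u)}.Finite

/-- `v` is `P 1`, `P (-1)` or a critical value of `P`. These are the critical values of all the
polynomials `P ∘ T_n`, `n ≥ 3`. -/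
def CriticalValue (P : ℂ[X]) (v : ℂ) : Prop :=
  v = P.eval 1 ∨ v = P.eval (-1) ∨ ∃ y : ℂ, (derivative P).eval y = 0 ∧ v = P.eval y

/-- `x` is the cosine of a rational multiple of `π`. -/
def RationalCosine (x : ℂ) : Prop := ∃ r : ℚ, x = Complex.cos (r * Real.pi)

/-- The orbit under `P ∘ T_n` of some critical value consists of cosines of rational multiples of
`π`, and for all points `x` of it `P' (T_n x) ≠ 0`, and `T_n x = ± 1` only if `x = ± 1`. (For
`n ≥ 1` this means that no point of this orbit is a critical point of `P ∘ T_n`.) -/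
def Resonant (P : ℂ[X]) (n : ℕ) : Prop :=
  ∃ v : ℂ, CriticalValue P v ∧ ∀ j : ℕ, RationalCosine ((map (T P n))^[j] v) ∧
    (derivative P).eval ((Chebyshev.T ℂ n).eval ((map (T P n))^[j] v)) ≠ 0 ∧
    (((Chebyshev.T ℂ n).eval ((map (T P n))^[j] v)) ^ 2 = 1 → ((map (T P n))^[j] v) ^ 2 = 1)

/-- The orbit under `P ∘ T_n` of some critical value leaves the cosines of rational multiples of `π`
at a point of the segment `[-1, 1]` whose image has distance at most `δ` from a point of the
segment. -/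
def Exceptional (P : ℂ[X]) (δ : ℝ) (n : ℕ) : Prop :=
  ∃ v : ℂ, CriticalValue P v ∧ ∃ j : ℕ, (∀ i < j, RationalCosine ((map (T P n))^[i] v)) ∧
    InSegment ((map (T P n))^[j] v) ∧ ¬ RationalCosine ((map (T P n))^[j] v) ∧
    ∃ t : ℝ, |t| ≤ 1 ∧ ‖(map (T P n))^[j + 1] v - t‖ ≤ δ

/-- The set of the `n` such that `P ∘ T_n` is hyperbolic has natural density `q`. -/
def HasDensity (P : ℂ[X]) (q : ℝ) : Prop :=
  Tendsto (fun N : ℕ => (({n : ℕ | n < N ∧ Hyperbolic (T P n)}.ncard : ℕ) : ℝ) / N) atTop (𝓝 q)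

/-- Let `P` be a nonconstant complex polynomial which maps only finitely many points of the segment
`[-1, 1]` into this segment; by (4) this is so whenever `P` has a nonreal coefficient. (1) The set of
the `n` for which `P ∘ T_n` is hyperbolic has a natural density, which is rational. (2) If none of
`P 1`, `P (-1)` and the critical values of `P` is the cosine of a rational multiple of `π`, the
density is one. (3) There are `M ≥ 1`, `K`, `n₀` and `C` such that: being resonant is a property of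
`n` modulo `M`; for `n ≥ n₀` resonant, `P ∘ T_n` is not hyperbolic; for `n ≥ n₀` not resonant and not
exceptional (with `δ = C / n`), `P ∘ T_n` is hyperbolic; for every `L`, all windows of length `L` far
enough out contain at most `K` exceptional `n`; the density is the proportion of nonresonant residues
modulo `M`. (5) For the affine polynomial with `1 ↦ -1` and `-1 ↦ i` the density is `1 / 2`.
(6) For every nonconstant `P`, real or not, there are `C` and `n₀` such that for all `n ≥ n₀`: some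
polynomial `P ∘ T_n + a` with `‖a‖ ≤ C / n` is hyperbolic, and the set of the `a` in the unit disc
for which it is not hyperbolic has area at most `C / n`. -/
theorem result :
    (∀ P : ℂ[X], 1 ≤ P.natDegree → Transverse P → ∃ q : ℚ, HasDensity P q) ∧
    (∀ P : ℂ[X], 1 ≤ P.natDegree → Transverse P →
      (∀ v : ℂ, CriticalValue P v → ¬ RationalCosine v) → HasDensity P 1) ∧
    (∀ P : ℂ[X], 1 ≤ P.natDegree → Transverse P →
      ∃ M K n₀ : ℕ, ∃ C : ℝ, 0 < M ∧
        (∀ n m : ℕ, n % M = m % M → (Resonant P n ↔ Resonant P m)) ∧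
        (∀ n : ℕ, n₀ ≤ n → Resonant P n → ¬ Hyperbolic (T P n)) ∧
        (∀ n : ℕ, n₀ ≤ n → ¬ Resonant P n → ¬ Exceptional P (C / n) n → Hyperbolic (T P n)) ∧
        (∀ L : ℕ, ∃ N₀ : ℕ, ∀ N : ℕ, N₀ ≤ N →
          {n : ℕ | (N ≤ n ∧ n < N + L) ∧ Exceptional P (C / n) n}.ncard ≤ K) ∧
        HasDensity P (({a : ℕ | a < M ∧ ¬ Resonant P a}.ncard : ℝ) / M)) ∧
    (∀ P : ℂ[X], (∃ k : ℕ, (P.coeff k).im ≠ 0) → Transverse P) ∧
    HasDensity (C ((Complex.I - 1) / 2) + C ((-1 - Complex.I) / 2) * X) (1 / 2) ∧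
    (∀ P : ℂ[X], 1 ≤ P.natDegree → ∃ C : ℝ, 0 < C ∧ ∃ n₀ : ℕ, ∀ n : ℕ, n₀ ≤ n →
      (∃ a : ℂ, ‖a‖ ≤ C / n ∧ Hyperbolic (T P n + Polynomial.C a)) ∧
      volume {a : ℂ | ‖a‖ ≤ 1 ∧ ¬ Hyperbolic (T P n + Polynomial.C a)} ≤
        ENNReal.ofReal (C / n)) := by
  have hset : ∀ (P : ℂ[X]) (N : ℕ), {n : ℕ | n < N ∧ Hyperbolic (T P n)} =
      {n : ℕ | Pool.Agent.Q189.CH.Hyperbolic (Pool.Agent.Q189.CH.F P n)} ∩ Set.Iio N := by
    intro P N
    ext n
    simp only [Set.mem_ofPred_eq, Set.mem_inter_iff, Set.mem_Iio]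
    exact and_comm
  refine ⟨fun P hP hZ => ?_, fun P hP hZ hv => ?_, fun P hP hZ => ?_, fun P h => ?_, ?_,
    fun P hP => ?_⟩
  · obtain ⟨q, hq⟩ := Pool.Agent.Q189.CH.density hP hZ
    refine ⟨q, ?_⟩
    unfold HasDensity
    simp only [hset]
    exact hq
  · unfold HasDensity
    simp only [hset]
    exact Pool.Agent.Q189.CH.density_one hP hZ hv
  · obtain ⟨M, K, n₀, C, hM, h1, h2, h3, h4, h5⟩ := Pool.Agent.Q189.CH.law hP hZ
    have hR : ∀ n, Pool.Agent.Q189.CH.Res P n ↔ Resonant P n := fun n => Iff.rfl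
    have hE : ∀ δ n, Pool.Agent.Q189.CH.Exc P δ n ↔ Exceptional P δ n := fun δ n => Iff.rfl
    refine ⟨M, K, n₀, C, hM, h1, h2, h3, fun L => ?_, ?_⟩
    · obtain ⟨N₀, hN₀⟩ := h4 L
      refine ⟨N₀, fun N hN => ?_⟩
      convert hN₀ N hN using 2
      ext n
      simp only [Set.mem_ofPred_eq, Set.mem_inter_iff, Set.mem_Ico]
      exact and_comm
    · unfold HasDensity
      simp only [hset]
      exact h5
  · exact Pool.Agent.Q189.CH.FZ_of h
  · unfold HasDensity
    simp only [hset]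
    exact Pool.Agent.Q189.CH.ex_density
  · obtain ⟨C₁, hC₁, n₁, h1⟩ := Pool.Agent.Q189.CH.small_translate hP
    obtain ⟨C₂, hC₂, h2⟩ := Pool.Agent.Q189.CH.area_translate hP
    refine ⟨C₁ + C₂, by positivity, n₁ + 2, fun n hn => ⟨?_, ?_⟩⟩
    · obtain ⟨a, ha, hh⟩ := h1 n (by omega)
      refine ⟨a, ha.trans ?_, hh⟩
      gcongr
      linarith
    · refine (h2 n (by omega)).trans ?_
      apply ENNReal.ofReal_le_ofReal
      gcongr
      linarith

end Pool.Agent.Results.MP_28f8a1_an.ChebyshevZeroOneLaw
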