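import Mathlib
import Pool.Prelude.Def_F_c31e40fa
import Pool.Agent.Q186.Pol.Sca

/-!
# Exact scaling of the hyperbolic polynomials near a unicritical polynomial

Let `c₀` be a parameter of the Multibrot set `M_d` whose critical value has a positive Lyapunov
exponent (harmonic-almost every boundary point of `M_d` is such). In the space `ℂ ^ (d + 1)` of the
coefficient vectors of ALL polynomials of degree at most `d` we consider the box of radius `r` about
`z ^ d + c₀`, and in it: the polynomials with a non-escaping critical point, those without escaping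
critical points (connected Julia set), and the hyperbolic polynomials with one attracting cycle
which attracts all the critical points. These three decreasing sets have the same exponents: the
volume is `r ^ (2 (d + 1) + 2 / (d - 1) + o(1))` (so the proportion in the box is
`r ^ (2 / (d - 1) + o(1))`), and the largest ball in the set has the radius
`r ^ (d / (d - 1) + o(1))`.

The upper bound for the volume of the first set is part of the starting result
`ColletEckmannUnicritical`; the lower bounds are the theorem `Pool.Agent.Y298.EX.low_fin_all` of the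
starting tree, which was used there only for the area of Julia sets.
-/

set_option autoImplicit false

open Set Filter Metric MeasureTheory Topology Polynomial
open N62a1eb23 (multibrotSet)
open Pool.Agent.H713R2 (IsExteriorMap)

namespace Pool.Agent.Results.MP_28f8a1_an.ExactScaling

/-- The polynomial as a self-map of the plane. -/
def map (T : ℂ[X]) : ℂ → ℂ := fun z : ℂ => T.eval z

/-- The orbit of `z` escapes to infinity. -/
def Escapes (T : ℂ[X]) (z : ℂ) : Prop :=
  Tendsto (fun k : ℕ => ‖(map T)^[k] z‖) atTop atTop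

/-- Some critical point does not escape: `T` is outside of the shift locus. -/
def SomeBounded (T : ℂ[X]) : Prop := ∃ c : ℂ, T.derivative.eval c = 0 ∧ ¬ Escapes T c

/-- No critical point escapes: the Julia set is connected. -/
def AllBounded (T : ℂ[X]) : Prop := ∀ c : ℂ, T.derivative.eval c = 0 → ¬ Escapes T c

/-- `T` is hyperbolic with one attracting cycle which attracts all the critical points. -/
def OneSink (T : ℂ[X]) : Prop :=
  ∃ (n : ℕ) (x : ℂ), 0 < n ∧ (map T)^[n] x = x ∧ ‖deriv ((map T)^[n]) x‖ < 1 ∧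
    ∀ c : ℂ, T.derivative.eval c = 0 → Tendsto (fun k : ℕ => (map T)^[n * k] c) atTop (𝓝 x)

/-- The polynomial with the given coefficients. -/
noncomputable def poly {d : ℕ} (a : Fin (d + 1) → ℂ) : ℂ[X] :=
  ∑ i : Fin (d + 1), C (a i) * X ^ (i : ℕ)

/-- The coefficient vectors within `r` of that of `z ^ d + c₀` for which the polynomial has the
property `Q`. -/
def near (d : ℕ) (c₀ : ℂ) (Q : ℂ[X] → Prop) (r : ℝ) : Set (Fin (d + 1) → ℂ) :=
  {a | (∀ i : Fin (d + 1), ‖a i - (X ^ d + C c₀ : ℂ[X]).coeff i‖ ≤ r) ∧ Q (poly a)}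

/-- The inradius of a set of coefficient vectors (maximum norm). -/
noncomputable def inradius {d : ℕ} (S : Set (Fin (d + 1) → ℂ)) : ℝ :=
  sSup {ρ : ℝ | 0 ≤ ρ ∧ ∃ a : Fin (d + 1) → ℂ, ball a ρ ⊆ S}

/-- `F r` behaves like `r ^ a` for `r → 0`, in the sense of exponents. -/
def Exponent (F : ℝ → ℝ) (a : ℝ) : Prop :=
  Tendsto (fun r : ℝ => Real.log (F r) / Real.log r) (𝓝[>] 0) (𝓝 a)

/-- The volume and the inradius of the set of the polynomials with the property `Q` near
`z ^ d + c₀` have the exponents `2 (d + 1) + 2 / (d - 1)` and `d / (d - 1)`. -/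
def Scales (d : ℕ) (c₀ : ℂ) (Q : ℂ[X] → Prop) : Prop :=
  Exponent (fun r => (volume (near d c₀ Q r)).toReal) (2 * (d + 1) + 2 / (d - 1)) ∧
  Exponent (fun r => inradius (near d c₀ Q r)) (d / (d - 1))

/-- The critical value `c₀` of `z ↦ z ^ d + c₀` has the positive Lyapunov exponent `χ`. -/
def LyapunovExponent (d : ℕ) (c₀ : ℂ) (χ : ℝ) : Prop :=
  0 < χ ∧
    Tendsto (fun n : ℕ => Real.log ‖deriv ((fun z : ℂ => z ^ d + c₀)^[n]) c₀‖ / n) atTop (𝓝 χ)

theorem near_eq {d : ℕ} {c₀ : ℂ} {Q : ℂ[X] → Prop} {r : ℝ} (hr : 0 ≤ r) : near d c₀ Q r =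
    (fun a => a + -Pool.Agent.Y272.GA.xx d) ⁻¹'
      ({b | Q (Pool.Agent.Y272.GA.pol d b)} ∩ closedBall (Pool.Agent.Y272.GA.ee d c₀) r) := by
  ext a
  have h1 := Pool.Agent.Y272.GA.mem_Bx (d := d) (c₀ := c₀) hr a
  have h2 := Pool.Agent.Y272.GA.poly_eq (d := d) a
  rw [mem_preimage, ← sub_eq_add_neg]
  constructor
  · rintro ⟨h3, h4⟩
    refine ⟨?_, h1.1 h3⟩
    change Q (Pool.Agent.Y272.GA.pol d (a - Pool.Agent.Y272.GA.xx d))
    rw [← h2]
    exact h4
  · rintro ⟨h3, h4⟩
    refine ⟨h1.2 h4, ?_⟩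
    unfold poly
    rw [h2]
    exact h3

theorem inradius_eq {d : ℕ} (S : Set (Fin (d + 1) → ℂ)) (v : Fin (d + 1) → ℂ) :
    inradius ((fun a => a + v) ⁻¹' S) = Pool.Agent.Q186.Pol.inr S := by
  unfold inradius Pool.Agent.Q186.Pol.inr
  congr 1
  ext ρ
  refine and_congr_right fun _ => ?_
  constructor
  · rintro ⟨a, ha⟩
    refine ⟨a + v, fun b hb => ?_⟩
    have h1 : b - v ∈ ball a ρ := by
      rw [mem_ball, dist_eq_norm] at hb ⊢
      rwa [sub_sub, add_comm v a]
    have h2 := ha h1
    rw [mem_preimage, sub_add_cancel] at h2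
    exact h2
  · rintro ⟨b, hb⟩
    refine ⟨b - v, fun a ha => ?_⟩
    rw [mem_preimage]
    apply hb
    rw [mem_ball, dist_eq_norm] at ha ⊢
    rwa [show a + v - b = a - (b - v) by abel]

theorem map_pol {d : ℕ} (b : Fin (d + 1) → ℂ) :
    map (Pool.Agent.Y272.GA.pol d b) = Pool.Agent.Y272.GA.FF d b :=
  funext (Pool.Agent.Y272.GA.pol_eval b)

/-- Let `d ≥ 2`. (1) At every `c₀` in the Multibrot set with a positive Lyapunov exponent (and
different from `-2` if `d = 2`), the polynomials with a non-escaping critical point, those with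
connected Julia set, and the hyperbolic ones with a single attracting cycle attracting all critical
points have, in the space of all polynomials of degree at most `d` near `z ^ d + c₀`, the same
exponent `2 (d + 1) + 2 / (d - 1)` of the volume and the same exponent `d / (d - 1)` of the inradius.
(2) For the exterior map `ψ` of the Multibrot set and almost every angle `θ`, this holds at the
landing point of the parameter ray of angle `θ`. -/
theorem result (d : ℕ) (hd : 2 ≤ d) :
    (∀ (c₀ : ℂ) (χ : ℝ), c₀ ∈ multibrotSet d → (d = 2 → c₀ ≠ -2) → LyapunovExponent d c₀ χ →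
      Scales d c₀ SomeBounded ∧ Scales d c₀ AllBounded ∧ Scales d c₀ OneSink) ∧
    (∃ ψ : ℂ → ℂ, IsExteriorMap (multibrotSet d) ψ) ∧
    ∀ ψ : ℂ → ℂ, IsExteriorMap (multibrotSet d) ψ →
      ∀ᵐ θ : ℝ, ∃ c₀ ∈ frontier (multibrotSet d),
        Tendsto (fun r : ℝ => ψ (r * Complex.exp (θ * Complex.I))) (𝓝[>] 1) (𝓝 c₀) ∧
        LyapunovExponent d c₀ (Real.log d) ∧
        Scales d c₀ SomeBounded ∧ Scales d c₀ AllBounded ∧ Scales d c₀ OneSink := by
  have key : ∀ (c₀ : ℂ) (χ : ℝ), c₀ ∈ multibrotSet d → (d = 2 → c₀ ≠ -2) →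
      LyapunovExponent d c₀ χ →
      Scales d c₀ SomeBounded ∧ Scales d c₀ AllBounded ∧ Scales d c₀ OneSink := by
    intro c₀ χ hc₀ hne hχ
    have hL : Pool.Agent.Y298.CA.Lyap d χ c₀ := ⟨hχ.1, hc₀, hχ.2⟩
    have gen : ∀ Q : ℂ[X] → Prop,
        (∀ᶠ r : ℝ in 𝓝[>] 0, Pool.Agent.Y298.EX.OS d ∩
          closedBall (Pool.Agent.Y272.GA.ee d c₀) r ⊆ {b | Q (Pool.Agent.Y272.GA.pol d b)}) →
        (∀ᶠ r : ℝ in 𝓝[>] 0, {b | Q (Pool.Agent.Y272.GA.pol d b)} ∩
          closedBall (Pool.Agent.Y272.GA.ee d c₀) r ⊆ Pool.Agent.Y272.GA.NE d) →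
        Scales d c₀ Q := by
      intro Q h1 h2
      obtain ⟨h3, h4⟩ := Pool.Agent.Q186.Pol.scal_of hd hL hne h1 h2
      constructor
      · refine h3.congr' ?_
        filter_upwards [self_mem_nhdsWithin] with r hr
        have hr0 : (0 : ℝ) ≤ r := le_of_lt hr
        rw [near_eq hr0, measure_preimage_add_right]
      · refine h4.congr' ?_
        filter_upwards [self_mem_nhdsWithin] with r hr
        have hr0 : (0 : ℝ) ≤ r := le_of_lt hr
        rw [near_eq hr0, inradius_eq]
    have e1 : {b | SomeBounded (Pool.Agent.Y272.GA.pol d b)} = Pool.Agent.Y272.GA.NE d := by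
      ext b
      change (∃ c : ℂ, _ ∧ ¬ Tendsto (fun k : ℕ => ‖(map (Pool.Agent.Y272.GA.pol d b))^[k] c‖)
        atTop atTop) ↔ _
      rw [map_pol]
      simp only [Pool.Agent.Y272.GA.pol_derivative_eval]
      rfl
    have e2 : {b | AllBounded (Pool.Agent.Y272.GA.pol d b)} = Pool.Agent.Y298.EX.CN d := by
      ext b
      change (∀ c : ℂ, _ → ¬ Tendsto (fun k : ℕ => ‖(map (Pool.Agent.Y272.GA.pol d b))^[k] c‖)
        atTop atTop) ↔ _
      rw [map_pol]
      simp only [Pool.Agent.Y272.GA.pol_derivative_eval]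
      rfl
    have e3 : {b | OneSink (Pool.Agent.Y272.GA.pol d b)} = Pool.Agent.Y298.EX.OS d := by
      ext b
      unfold OneSink Pool.Agent.Y298.EX.OS
      rw [Set.mem_ofPred_eq, Set.mem_ofPred_eq, map_pol]
      simp only [Pool.Agent.Y272.GA.pol_derivative_eval]
    have hCN := Pool.Agent.Q186.Pol.cn_sub_ne (d := d) (c₀ := c₀) hd
    have hOC := Pool.Agent.Y298.EX.OS_sub_CN (d := d)
    refine ⟨gen _ ?_ ?_, gen _ ?_ ?_, gen _ ?_ ?_⟩
    · rw [e1]
      filter_upwards [hCN] with r hr
      exact (inter_subset_inter_left _ hOC).trans hr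
    · rw [e1]
      exact Eventually.of_forall fun r => inter_subset_left
    · rw [e2]
      exact Eventually.of_forall fun r => inter_subset_left.trans hOC
    · rw [e2]
      exact hCN
    · rw [e3]
      exact Eventually.of_forall fun r => inter_subset_left
    · rw [e3]
      filter_upwards [hCN] with r hr
      exact (inter_subset_inter_left _ hOC).trans hr
  refine ⟨key, ?_⟩
  obtain ⟨β, hβ⟩ := Pool.Agent.H713R2.exists_beta (d := d) hd
  refine ⟨⟨_, Pool.Agent.H713R2.exteriorMap_of_beta hβ⟩, ?_⟩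
  intro ψ hψ
  filter_upwards [Pool.Agent.Y272.TY.ae_neg' (Pool.Agent.Y272.TY.typical_all hd hβ)] with θ hθ
  obtain ⟨c₀, A, R, h⟩ := hθ
  obtain ⟨h1, h2, h3⟩ := Pool.Agent.Y298.CA.lyap_of_typ hd hβ h
  refine ⟨c₀, h.frontier hd hβ, h.tendsto_psi hβ hψ, ⟨h1, h3⟩, key c₀ _ h2 ?_ ⟨h1, h3⟩⟩
  rintro rfl rfl
  have h4 := Pool.Agent.Y272.GA.lyap_neg_two ⟨h1, h2, h3⟩
  have h5 := Real.log_injOn_pos (by norm_num : (((2 : ℕ) : ℝ)) ∈ Set.Ioi (0 : ℝ))
    (by norm_num : (4 : ℝ) ∈ Set.Ioi (0 : ℝ)) h4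
  norm_num at h5

end Pool.Agent.Results.MP_28f8a1_an.ExactScaling
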