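import Mathlib
import Pool.Agent.Q182.PB2

set_option autoImplicit false

/-!
# Every polynomial is the end of a curve of polynomials which attract everything outside its Julia
set

Let `T` be a complex polynomial of degree `d ≥ 2`. There is a curve `S t`, `0 < t ≤ t₀`, of
polynomials of degree `d` with `|S t - T| ≤ C t` along which all the indifferent cycles of `T` become
attracting at the same time, and such that everything outside the Julia set of `T` is attracted by
`S t` for small `t`: the basins of the attracting and parabolic cycles, the Siegel discs and their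
preimages. The points which are not attracted by `S t` converge to the Julia set of `T`, and the
critical points of `T` outside the Julia set become attracted critical points.
-/

open Topology Filter Metric Set Polynomial MeasureTheory

namespace Pool.Agent.Results.MP_28f8a1_an.IndifferentCycles

/-- The polynomial as a self-map of the plane. -/
def map (T : ℂ[X]) : ℂ → ℂ := fun w : ℂ => T.eval w

/-- The orbit of `z` escapes to infinity. -/
def Escapes (T : ℂ[X]) (z : ℂ) : Prop :=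
  Tendsto (fun k : ℕ => ‖(map T)^[k] z‖) atTop atTop

/-- The orbit of `z` is attracted by a sink (attracting periodic point) of `T`. -/
def Attracted (T : ℂ[X]) (z : ℂ) : Prop :=
  ∃ n : ℕ, 0 < n ∧ ∃ x : ℂ, (map T)^[n] x = x ∧ ‖deriv ((map T)^[n]) x‖ < 1 ∧
    Tendsto (fun k : ℕ => (map T)^[n * k] z) atTop (𝓝 x)

/-- The point `z` belongs to the basin of a parabolic cycle of `T`. -/
def InParabolicBasin (T : ℂ[X]) (z : ℂ) : Prop :=
  ∃ (n : ℕ) (x : ℂ), 0 < n ∧ (map T)^[n] x = x ∧ deriv ((map T)^[n]) x = 1 ∧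
    Tendsto (fun k : ℕ => (map T)^[n * k] z) atTop (𝓝 x) ∧ ∀ k : ℕ, (map T)^[n * k] z ≠ x

/-- The point `z` is mapped by an iterate of `T` into a disc on which an iterate of `T` is
conjugate to an irrational rotation (a Siegel disc). -/
def InSiegelDisc (T : ℂ[X]) (z : ℂ) : Prop :=
  ∃ (m n : ℕ) (r : ℝ) (h : ℂ → ℂ) (ρ : ℂ), 0 < n ∧ 0 < r ∧ ‖ρ‖ = 1 ∧
    (∀ k : ℕ, 0 < k → ρ ^ k ≠ 1) ∧ DifferentiableOn ℂ h (ball 0 r) ∧ Set.InjOn h (ball 0 r) ∧
    (∀ w ∈ ball (0 : ℂ) r, (map T)^[n] (h w) = h (ρ * w)) ∧ (map T)^[m] z ∈ h '' ball 0 r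

/-- The orbit of `z` escapes or is attracted by a sink. -/
def Tame (T : ℂ[X]) (z : ℂ) : Prop := Escapes T z ∨ Attracted T z

/-- The points which are in none of the basins and not mapped into a Siegel disc. By Sullivan's
theorem and the classification of periodic Fatou components this is the Julia set of `T`. -/
def Js (T : ℂ[X]) : Set ℂ :=
  {z : ℂ | ¬ Tame T z ∧ ¬ InParabolicBasin T z ∧ ¬ InSiegelDisc T z}

/-- `S` is hyperbolic: every critical point escapes or is attracted by a sink. -/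
def Hyperbolic (S : ℂ[X]) : Prop := ∀ c : ℂ, (derivative S).eval c = 0 → Tame S c

/-- `S t`, `0 < t ≤ t₀`, are polynomials of the degree of `T`, equal to `T` up to terms of degree at
most `deg T - 2`, at a distance at most `C t` from `T`. -/
def IsPath (T : ℂ[X]) (t₀ C : ℝ) (S : ℝ → ℂ[X]) : Prop :=
  ∀ t : ℝ, 0 < t → t ≤ t₀ → (S t).natDegree = T.natDegree ∧
    (∀ j : ℕ, T.natDegree - 1 ≤ j → (S t).coeff j = T.coeff j) ∧
    ∀ j : ℕ, ‖(S t).coeff j - T.coeff j‖ ≤ C * t

/-- For all sufficiently small `t > 0`. -/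
def ForSmall (t₀ : ℝ) (P : ℝ → Prop) : Prop :=
  ∃ t₁ : ℝ, 0 < t₁ ∧ t₁ ≤ t₀ ∧ ∀ t : ℝ, 0 < t → t < t₁ → P t

theorem Js_eq (T : ℂ[X]) : Js T = Pool.Agent.Q182.PB.NJ T := by
  ext z
  have e : Js T = {z : ℂ | ¬ Pool.Agent.H713R5.QJ.Good (Pool.Agent.H713R5.QJ.ev T) z ∧
      ¬ Pool.Agent.H713R5.QJ.Para (Pool.Agent.H713R5.QJ.ev T) z ∧
      ¬ Pool.Agent.H713R5.QJ.Sieg (Pool.Agent.H713R5.QJ.ev T) z} := rfl
  rw [e, Pool.Agent.Q182.PB.NJ, mem_setOf_eq, mem_setOf_eq]
  tauto

/-- Let `T` be a complex polynomial of degree at least two. There are `0 < t₀ < 1`, `C > 0` and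
polynomials `S t`, `0 < t ≤ t₀`, of the degree of `T`, which differ from `T` by polynomials of degree
at most `deg T - 2` with coefficients of modulus at most `C t`, such that

(1) every indifferent periodic point `x` of `T` (`T^p x = x`, `|(T^p)'(x)| = 1`) is accompanied by
attracting ones of `S t`: for some `k ≥ 1` and all `t` there is `y` with `|y - x| ≤ C t`,
`(S t)^p y = y` and `((S t)^p)'(y) = (1 - t)^k (T^p)'(x)`;

(2) every point outside `Js T` has a neighbourhood all of whose points escape or are attracted by a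
sink of `S t`, for all small `t`;

(3) for every open `V` containing `Js T`, for all small `t` all points outside `V` escape or are
attracted by sinks of `S t`;

(4) for every `ε > 0` and all small `t` the area of the set of the points which do not escape and are
not attracted by sinks of `S t` is at most `area (Js T) + ε`;

(5) for every `ε > 0` and all small `t` the critical points `c i` of `S t` and `s i` of `T`
(`i = 1, …, deg T - 1`, with multiplicities) can be numbered such that `|c i - s i| < ε` and such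
that `c i` escapes or is attracted by a sink of `S t` whenever `s i` is not in `Js T`;

(6) if no critical point of `T` is in `Js T` then `S t` is hyperbolic for all small `t`. -/
theorem result (T : ℂ[X]) (hT : 2 ≤ T.natDegree) :
    ∃ (t₀ C : ℝ) (S : ℝ → ℂ[X]), 0 < t₀ ∧ t₀ < 1 ∧ 0 < C ∧ IsPath T t₀ C S ∧
      (∀ (p : ℕ) (x : ℂ), 0 < p → (map T)^[p] x = x → ‖deriv ((map T)^[p]) x‖ = 1 →
        ∃ k : ℕ, 0 < k ∧ ∀ t : ℝ, 0 < t → t ≤ t₀ → ∃ y : ℂ, ‖y - x‖ ≤ C * t ∧
          (map (S t))^[p] y = y ∧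
          deriv ((map (S t))^[p]) y = ((1 - t : ℝ) : ℂ) ^ k * deriv ((map T)^[p]) x) ∧
      (∀ z : ℂ, z ∉ Js T → ∃ δ : ℝ, 0 < δ ∧ ForSmall t₀ fun t => ∀ w ∈ ball z δ, Tame (S t) w) ∧
      (∀ V : Set ℂ, IsOpen V → Js T ⊆ V → ForSmall t₀ fun t => ∀ z : ℂ, z ∉ V → Tame (S t) z) ∧
      (∀ ε : ℝ, 0 < ε → ForSmall t₀ fun t =>
        volume {z : ℂ | ¬ Tame (S t) z} ≤ volume (Js T) + ENNReal.ofReal ε) ∧
      (∀ ε : ℝ, 0 < ε → ForSmall t₀ fun t => ∃ c s : Fin (T.natDegree - 1) → ℂ,
        (derivative (S t)).roots = Finset.univ.val.map c ∧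
        (derivative T).roots = Finset.univ.val.map s ∧
        ∀ i, ‖c i - s i‖ < ε ∧ (s i ∉ Js T → Tame (S t) (c i))) ∧
      ((∀ c : ℂ, (derivative T).eval c = 0 → c ∉ Js T) → ForSmall t₀ fun t => Hyperbolic (S t)) := by
  obtain ⟨t₀, C, S, y, kk, hS⟩ := Pool.Agent.Q182.PB.exists_curve T hT
  have ht := hS.t0
  obtain ⟨t₂, h0, h1, h2⟩ : ∃ t₂ : ℝ, 0 < t₂ ∧ t₂ ≤ t₀ ∧ t₂ < 1 :=
    ⟨min t₀ (1 / 2), lt_min ht (by norm_num), min_le_left _ _,
      (min_le_right _ _).trans_lt (by norm_num)⟩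
  have small : ∀ P : ℝ → Prop, (∃ t₁ : ℝ, 0 < t₁ ∧ ∀ t : ℝ, 0 < t → t < t₁ → P t) →
      ForSmall t₂ P := by
    rintro P ⟨t₁, a, b⟩
    exact ⟨min t₁ t₂, lt_min a h0, min_le_right _ _, fun t c e => b t c (e.trans_le (min_le_left _ _))⟩
  have crit : ∀ ε : ℝ, 0 < ε → ForSmall t₂ fun t => ∃ c s : Fin (T.natDegree - 1) → ℂ,
        (derivative (S t)).roots = Finset.univ.val.map c ∧
        (derivative T).roots = Finset.univ.val.map s ∧
        ∀ i, ‖c i - s i‖ < ε ∧ (s i ∉ Js T → Tame (S t) (c i)) := by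
    intro ε hε
    obtain ⟨t₁, a, -, b⟩ := Pool.Agent.Q182.PB.crit hT hS ε hε
    rw [Js_eq]
    exact small _ ⟨t₁, a, b⟩
  refine ⟨t₂, C, S, h0, h2, hS.C0, ?_, ?_, ?_, ?_, ?_, crit, ?_⟩
  · intro t a b
    exact ⟨hS.deg t a.le (b.trans h1), hS.top t a.le (b.trans h1), hS.cf t a.le (b.trans h1)⟩
  · intro p x hp hx hm
    have h := hS.pc p x _ hp hx rfl hm
    exact ⟨kk x p, h.kp, fun t a b => ⟨y t x, h.yx t a.le (b.trans h1), h.fixt t a.le (b.trans h1),
      h.mul t a.le (b.trans h1)⟩⟩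
  · intro z hz
    rw [Js_eq] at hz
    obtain ⟨δ, t₁, hδ, ht₁, H⟩ := Pool.Agent.Q182.PB.local_good hT hS z (by
      by_contra h
      exact hz h)
    exact ⟨δ, hδ, small _ ⟨t₁, ht₁, H⟩⟩
  · intro V hV hJ
    rw [Js_eq] at hJ
    obtain ⟨t₁, a, -, b⟩ := Pool.Agent.Q182.PB.semi hT hS V hV hJ
    refine small _ ⟨t₁, a, fun t c e z hz => ?_⟩
    by_contra h
    exact hz (b t c e z h)
  · intro ε hε
    obtain ⟨t₁, a, -, b⟩ := Pool.Agent.Q182.PB.area hT hS ε hε
    rw [Js_eq]
    exact small _ ⟨t₁, a, b⟩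
  · intro hc
    obtain ⟨t₁, a, a', b⟩ := crit 1 one_pos
    refine ⟨t₁, a, a', fun t e f => ?_⟩
    obtain ⟨c, s, h3, h4, h5⟩ := b t e f
    intro w hw
    have hne : derivative (S t) ≠ 0 := by
      intro h
      rw [derivative_eq_zero, hS.deg t e.le ((f.le.trans a').trans h1)] at h
      omega
    have hTne : derivative T ≠ 0 := by
      intro h
      rw [derivative_eq_zero] at h
      omega
    have h6 : w ∈ (derivative (S t)).roots := (mem_roots hne).2 hw
    rw [h3, Multiset.mem_map] at h6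
    obtain ⟨i, -, rfl⟩ := h6
    apply (h5 i).2
    apply hc
    have h7 : s i ∈ (derivative T).roots := by
      rw [h4]
      exact Multiset.mem_map_of_mem _ (Finset.mem_univ_val i)
    exact (mem_roots hTne).1 h7

end Pool.Agent.Results.MP_28f8a1_an.IndifferentCycles
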