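import Mathlib
import Pool.Agent.Q186.Hyp.Zo

/-! The zero-one law for the hyperbolicity of the polynomials `P (z ^ n)`. -/

set_option autoImplicit false

open Filter Topology Polynomial

namespace Pool.Agent.Results.MP_28f8a1_an.PowerZeroOneLaw

/-- The polynomial as a self-map of the plane. -/
def map (T : ℂ[X]) : ℂ → ℂ := fun w : ℂ => T.eval w

/-- The orbit of `z` escapes to infinity. -/
def Escapes (T : ℂ[X]) (z : ℂ) : Prop :=
  Tendsto (fun k : ℕ => ‖(map T)^[k] z‖) atTop atTop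

/-- The orbit of `z` is attracted by a sink (attracting periodic point) of `T`. -/
def Attracted (T : ℂ[X]) (z : ℂ) : Prop :=
  ∃ n : ℕ, 0 < n ∧ ∃ x : ℂ, (map T)^[n] x = x ∧ ‖deriv ((map T)^[n]) x‖ < 1 ∧
    Tendsto (fun k : ℕ => (map T)^[n * k] z) atTop (𝓝 x)

/-- `T` is hyperbolic: every critical point escapes or is attracted by a sink. -/
def Hyperbolic (T : ℂ[X]) : Prop :=
  ∀ c : ℂ, (derivative T).eval c = 0 → Escapes T c ∨ Attracted T c

/-- `T n` is the polynomial `P (z ^ n)`. -/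
noncomputable def T (P : ℂ[X]) (n : ℕ) : ℂ[X] := P.comp (X ^ n)

/-- `v` is `P 0` or a critical value of `P`. These are the critical values of all the
polynomials `P (z ^ n)`, `n ≥ 2`. -/
def CriticalValue (P : ℂ[X]) (v : ℂ) : Prop :=
  v = P.eval 0 ∨ ∃ y : ℂ, (derivative P).eval y = 0 ∧ v = P.eval y

/-- `x` is a root of unity. -/
def RootOfUnity (x : ℂ) : Prop := ∃ k : ℕ, 0 < k ∧ x ^ k = 1

/-- The orbit under `T n` of some critical value consists of roots of unity, and `P' (x ^ n) ≠ 0`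
for all points `x` of it. -/
def Resonant (P : ℂ[X]) (n : ℕ) : Prop :=
  ∃ v : ℂ, CriticalValue P v ∧ ∀ j : ℕ, RootOfUnity ((map (T P n))^[j] v) ∧
    (derivative P).eval (((map (T P n))^[j] v) ^ n) ≠ 0

/-- The orbit under `T n` of some critical value leaves the roots of unity at a point of the unit
circle whose image has distance at most `δ` from the unit circle. -/
def Exceptional (P : ℂ[X]) (δ : ℝ) (n : ℕ) : Prop :=
  ∃ v : ℂ, CriticalValue P v ∧ ∃ j : ℕ, (∀ i < j, RootOfUnity ((map (T P n))^[i] v)) ∧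
    ‖(map (T P n))^[j] v‖ = 1 ∧ ¬ RootOfUnity ((map (T P n))^[j] v) ∧
    |‖(map (T P n))^[j + 1] v‖ - 1| ≤ δ

/-- The set of the exponents `n` such that `P (z ^ n)` is hyperbolic has natural density `q`. -/
def HasDensity (P : ℂ[X]) (q : ℝ) : Prop :=
  Tendsto (fun N : ℕ => (({n : ℕ | n < N ∧ Hyperbolic (T P n)}.ncard : ℕ) : ℝ) / N) atTop (𝓝 q)

/-- Let `P` be a nonconstant complex polynomial. (1) The set of the `n` for which `P (z ^ n)` is
hyperbolic has a natural density, which is rational. (2) If neither `P 0` nor a critical value of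
`P` is a root of unity, the density is one. (3) Suppose that `|P|` is not identically one on the
unit circle. There are `M ≥ 1`, `K`, `n₀` and `C` such that: being resonant is a property of `n`
modulo `M`; for `n ≥ n₀` resonant, `P (z ^ n)` is not hyperbolic; for `n ≥ n₀` not resonant and not
exceptional (with `δ = C log n / n`), `P (z ^ n)` is hyperbolic; for every `L`, all windows of
length `L` far enough out contain at most `K` exceptional `n`; the density is the proportion of
nonresonant residues modulo `M`. (4) For `P = 2 X ^ 2 - 2 X - 1` the density is `1 / 2`. -/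
theorem result :
    (∀ P : ℂ[X], 1 ≤ P.natDegree → ∃ q : ℚ, HasDensity P q) ∧
    (∀ P : ℂ[X], 1 ≤ P.natDegree → (∀ v : ℂ, CriticalValue P v → ¬ RootOfUnity v) →
      HasDensity P 1) ∧
    (∀ P : ℂ[X], 1 ≤ P.natDegree → (∃ u : ℂ, ‖u‖ = 1 ∧ ‖P.eval u‖ ≠ 1) →
      ∃ M K n₀ : ℕ, ∃ C : ℝ, 0 < M ∧
        (∀ n m : ℕ, n % M = m % M → (Resonant P n ↔ Resonant P m)) ∧
        (∀ n : ℕ, n₀ ≤ n → Resonant P n → ¬ Hyperbolic (T P n)) ∧
        (∀ n : ℕ, n₀ ≤ n → ¬ Resonant P n → ¬ Exceptional P (C * (Real.log n / n)) n →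
          Hyperbolic (T P n)) ∧
        (∀ L : ℕ, ∃ N₀ : ℕ, ∀ N : ℕ, N₀ ≤ N →
          {n : ℕ | (N ≤ n ∧ n < N + L) ∧ Exceptional P (C * (Real.log n / n)) n}.ncard ≤ K) ∧
        HasDensity P (({a : ℕ | a < M ∧ ¬ Resonant P a}.ncard : ℝ) / M)) ∧
    HasDensity (C 2 * X ^ 2 - C 2 * X - 1) (1 / 2) := by
  have hset : ∀ (P : ℂ[X]) (N : ℕ), {n : ℕ | n < N ∧ Hyperbolic (T P n)} =
      {n : ℕ | Pool.Agent.Q186.Hyp.Hyperbolic (expand ℂ n P)} ∩ Set.Iio N := by
    intro P N
    ext n
    have h : expand ℂ n P = T P n := expand_eq_comp_X_pow n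
    simp only [Set.mem_ofPred_eq, Set.mem_inter_iff, Set.mem_Iio, h]
    exact and_comm
  have hexp : ∀ (P : ℂ[X]) (n : ℕ), expand ℂ n P = T P n := fun P n => expand_eq_comp_X_pow n
  refine ⟨fun P hP => ?_, fun P hP hv => ?_, fun P hP hne => ?_, ?_⟩
  · obtain ⟨q, hq⟩ := Pool.Agent.Q186.Hyp.density hP
    refine ⟨q, ?_⟩
    unfold HasDensity
    simp only [hset]
    exact hq
  · unfold HasDensity
    simp only [hset]
    exact Pool.Agent.Q186.Hyp.density_one hP hv
  · obtain ⟨M, K, n₀, C, hM, h1, h2, h3, h4, h5⟩ := Pool.Agent.Q186.Hyp.law hP hne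
    have hR : ∀ n, Pool.Agent.Q186.Hyp.Resonant P n ↔ Resonant P n := by
      intro n
      unfold Pool.Agent.Q186.Hyp.Resonant Resonant
      rw [hexp]
      exact Iff.rfl
    have hE : ∀ δ n, Pool.Agent.Q186.Hyp.Exceptional P δ n ↔ Exceptional P δ n := by
      intro δ n
      unfold Pool.Agent.Q186.Hyp.Exceptional Exceptional
      rw [hexp]
      exact Iff.rfl
    simp only [hR, hE, hexp] at h1 h2 h3 h4
    refine ⟨M, K, n₀, C, hM, h1, h2, h3, fun L => ?_, ?_⟩
    · obtain ⟨N₀, hN₀⟩ := h4 L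
      refine ⟨N₀, fun N hN => ?_⟩
      convert hN₀ N hN using 2
      ext n
      simp only [Set.mem_ofPred_eq, Set.mem_inter_iff, Set.mem_Ico]
      exact and_comm
    · unfold HasDensity
      simp only [hset]
      simpa only [hR] using h5
  · unfold HasDensity
    simp only [hset]
    exact Pool.Agent.Q186.Hyp.ex_density

end Pool.Agent.Results.MP_28f8a1_an.PowerZeroOneLaw
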